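import Pool.Agent.W223.AC.StmsP

set_option autoImplicit false

/-!
AC2-MOBC: conductors under a linear fractional map.
-/

namespace Pool.Agent.W337.AC.MOBC

open Polynomial IsDedekindDomain NumberField
open Pool.Agent.W223.VD (cnt)
open Pool.Agent.W223.CV
open Pool.Agent.W223.AC
open Pool.Agent.Results.MP_f5a5f7_nt.FewExceptions (cond)

variable {K : Type} [Field K] [NumberField K]

lemma mk_lt (v : HeightOneSpectrum (𝓞 K)) (x : K) :
    FinitePlace.mk v x < 1 ↔ v.valuation K x < 1 := by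
  rw [← Pool.Agent.W125.CV.fv_apply, Pool.Agent.W125.CV.fv_eq]
  have hm : StrictMono (WithZeroMulInt.toNNReal (HeightOneSpectrum.absNorm_ne_zero v)) :=
    WithZeroMulInt.toNNReal_strictMono (HeightOneSpectrum.one_lt_absNorm_nnreal v)
  have h1 := hm.lt_iff_lt (a := v.valuation K x) (b := 1)
  rw [map_one] at h1
  rw [← h1]
  exact_mod_cast Iff.rfl

lemma cond_eq (z : K) : (Module.finrank ℚ K : ℝ) * cond z =
    cc ∅ (fun v : HeightOneSpectrum (𝓞 K) => v.valuation K z < 1) := by
  have hd : (Module.finrank ℚ K : ℝ) ≠ 0 := by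
    exact_mod_cast (Module.finrank_pos (R := ℚ) (M := K)).ne'
  unfold Pool.Agent.Results.MP_f5a5f7_nt.FewExceptions.cond cc
  rw [← mul_assoc, mul_one_div_cancel hd, one_mul]
  refine finsum_congr fun v => ?_
  by_cases h : v.valuation K z < 1
  · rw [if_pos ((mk_lt v z).2 h), ct_pos ⟨by simp, h⟩]
  · rw [if_neg fun h1 => h ((mk_lt v z).1 h1), ct_neg fun h1 => h h1.2]

lemma val_rat_eq (v : HeightOneSpectrum (𝓞 K)) (c : ℚ) (h : ((c.den : ℕ) : 𝓞 K) ∉ v.asIdeal) :
    v.valuation K (c : K) = v.valuation K ((c.num.natAbs : ℕ) : K) := by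
  have h1 : (c : K) = (c.num : K) / (c.den : K) := by
    exact_mod_cast Rat.cast_def (K := K) c
  rw [h1, map_div₀, val_nat_eq_one v _ h, div_one]
  rcases Int.natAbs_eq c.num with h2 | h2
  · rw [h2]; simp
  · rw [h2]; simp

lemma val_rat_le (v : HeightOneSpectrum (𝓞 K)) (c : ℚ) (h : ((c.den : ℕ) : 𝓞 K) ∉ v.asIdeal) :
    v.valuation K (c : K) ≤ 1 := by
  rw [val_rat_eq v c h]
  have := v.valuation_le_one (K := K) ((c.num.natAbs : ℕ) : 𝓞 K)
  simpa using this

lemma val_rat_one (v : HeightOneSpectrum (𝓞 K)) (c : ℚ) (h : ((c.den : ℕ) : 𝓞 K) ∉ v.asIdeal)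
    (h' : ((c.num.natAbs : ℕ) : 𝓞 K) ∉ v.asIdeal) : v.valuation K (c : K) = 1 := by
  rw [val_rat_eq v c h, val_nat_eq_one v _ h']

lemma near_of (a : ℚ) (x : K) (v : HeightOneSpectrum (𝓞 K))
    (hv : ((a.den : ℕ) : 𝓞 K) ∉ v.asIdeal)
    (h : v.valuation K (x - (a : K)) < max (v.valuation K x) 1) : Near (pt a) x v := by
  have hd := val_nat_eq_one v _ hv
  have hd0 : (a.den : K) ≠ 0 := by exact_mod_cast a.den_nz
  have hlin : lin (pt a) x = -((a.den : K) * (x - (a : K))) := by
    unfold lin pt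
    have : (a : K) = (a.num : K) / (a.den : K) := by
      exact_mod_cast Rat.cast_def (K := K) a
    rw [this]
    field_simp
    push_cast
    ring
  show v.valuation K (lin (pt a) x) < max (v.valuation K x) 1
  rw [hlin, Valuation.map_neg, map_mul, hd, one_mul]
  exact h

lemma sub_le (a : ℚ) (x : K) (v : HeightOneSpectrum (𝓞 K))
    (hv : ((a.den : ℕ) : 𝓞 K) ∉ v.asIdeal) :
    v.valuation K (x - (a : K)) ≤ max (v.valuation K x) 1 :=
  (Valuation.map_sub _ _ _).trans (max_le_max (le_refl _) (val_rat_le v a hv))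

lemma excl01 {v : HeightOneSpectrum (𝓞 K)} {y : K} (h0 : v.valuation K y < 1)
    (h1 : v.valuation K (y - 1) < 1) : False := by
  have h2 : (1 : K) = y - (y - 1) := by ring
  have h3 := Valuation.map_sub (v.valuation K) y (y - 1)
  rw [← h2, map_one] at h3
  exact absurd (h3.trans_lt (max_lt h0 h1)) (lt_irrefl _)

lemma excl02 {v : HeightOneSpectrum (𝓞 K)} {y : K} (hy : y ≠ 0) (h0 : v.valuation K y ≤ 1)
    (h1 : v.valuation K y⁻¹ < 1) : False := by
  have h2 : v.valuation K y * v.valuation K y⁻¹ = 1 := by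
    rw [← map_mul, mul_inv_cancel₀ hy, map_one]
  have h3 : v.valuation K y * v.valuation K y⁻¹ ≤ v.valuation K y⁻¹ :=
    mul_le_of_le_one_left' h0
  rw [h2] at h3
  exact absurd (h3.trans_lt h1) (lt_irrefl _)

lemma excl12 {v : HeightOneSpectrum (𝓞 K)} {y : K} (hy : y ≠ 0)
    (h0 : v.valuation K (y - 1) < 1) (h1 : v.valuation K y⁻¹ < 1) : False := by
  refine excl02 hy ?_ h1
  have h2 := Valuation.map_add (v.valuation K) (y - 1) 1
  rw [sub_add_cancel, map_one] at h2
  exact h2.trans (max_le h0.le le_rfl)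

/-- the bad number -/
noncomputable def MM (a : Fin 3 → ℚ) (S : Finset ℕ) : ℕ :=
  (∏ p ∈ S, p) * ((∏ i, (a i).den) *
    ∏ i, ∏ j, (if i = j then 1 else (a i - a j).num.natAbs * (a i - a j).den))

lemma MM_ne (a : Fin 3 → ℚ) (ha : Function.Injective a) (S : Finset ℕ) (hS : ∀ p ∈ S, p.Prime) :
    MM a S ≠ 0 := by
  unfold MM
  refine mul_ne_zero (Finset.prod_ne_zero_iff.2 fun p hp => (hS p hp).ne_zero) (mul_ne_zero
    (Finset.prod_ne_zero_iff.2 fun i _ => (a i).den_nz)
    (Finset.prod_ne_zero_iff.2 fun i _ => Finset.prod_ne_zero_iff.2 fun j _ => ?_))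
  by_cases h : i = j
  · rw [if_pos h]; exact one_ne_zero
  · rw [if_neg h]
    refine mul_ne_zero ?_ (Rat.den_nz _)
    rw [Int.natAbs_ne_zero, Rat.num_ne_zero]
    exact sub_ne_zero.2 fun h1 => h (ha h1)

lemma MM_p (a : Fin 3 → ℚ) (S : Finset ℕ) {p : ℕ} (hp : p ∈ S) : p ∣ MM a S :=
  (Finset.dvd_prod_of_mem (fun p => p) hp).trans (Dvd.intro _ rfl)

lemma MM_den (a : Fin 3 → ℚ) (S : Finset ℕ) (i : Fin 3) : (a i).den ∣ MM a S :=
  ((Finset.dvd_prod_of_mem (fun i => (a i).den) (Finset.mem_univ i)).trans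
    (Dvd.intro _ rfl)).trans (Dvd.intro_left _ rfl)

lemma MM_diff (a : Fin 3 → ℚ) (S : Finset ℕ) {i j : Fin 3} (h : i ≠ j) :
    (a i - a j).num.natAbs ∣ MM a S ∧ (a i - a j).den ∣ MM a S := by
  have h1 : (a i - a j).num.natAbs * (a i - a j).den ∣ MM a S := by
    have h2 : (a i - a j).num.natAbs * (a i - a j).den =
        (if i = j then 1 else (a i - a j).num.natAbs * (a i - a j).den) := by rw [if_neg h]
    rw [h2]
    refine ((Finset.dvd_prod_of_mem (fun j => if i = j then 1 else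
      (a i - a j).num.natAbs * (a i - a j).den) (Finset.mem_univ j)).trans
      (Finset.dvd_prod_of_mem (fun i => ∏ j, if i = j then 1 else
      (a i - a j).num.natAbs * (a i - a j).den) (Finset.mem_univ i))).trans ?_
    exact (Dvd.intro_left _ rfl).trans (Dvd.intro_left _ rfl)
  exact ⟨(Dvd.intro _ rfl).trans h1, (Dvd.intro_left _ rfl).trans h1⟩

lemma val_diff (a : Fin 3 → ℚ) (S : Finset ℕ) {v : HeightOneSpectrum (𝓞 K)}
    (hv : ((MM a S : ℕ) : 𝓞 K) ∉ v.asIdeal) {i j : Fin 3} (h : i ≠ j) :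
    v.valuation K ((a i : K) - (a j : K)) = 1 := by
  have h1 := val_rat_one v (a i - a j) (not_mem_of_dvd (MM_diff a S h).2 hv)
    (not_mem_of_dvd (MM_diff a S h).1 hv)
  rwa [Rat.cast_sub] at h1

lemma mob_vals (a : Fin 3 → ℚ) (ha : Function.Injective a) (S : Finset ℕ) (x : K)
    (hx : ∀ j, x ≠ (a j : K)) :
    mob a x ≠ 0 ∧ mob a x - 1 ≠ 0 ∧ ∀ v : HeightOneSpectrum (𝓞 K),
      ((MM a S : ℕ) : 𝓞 K) ∉ v.asIdeal →
      v.valuation K (x - (a 0 : K)) = v.valuation K (mob a x) * v.valuation K (x - (a 2 : K)) ∧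
      v.valuation K (x - (a 1 : K)) =
        v.valuation K (mob a x - 1) * v.valuation K (x - (a 2 : K)) ∧
      v.valuation K (x - (a 2 : K)) =
        v.valuation K (mob a x)⁻¹ * v.valuation K (x - (a 0 : K)) := by
  have x0 : x - (a 0 : K) ≠ 0 := sub_ne_zero.2 (hx 0)
  have x1 : x - (a 1 : K) ≠ 0 := sub_ne_zero.2 (hx 1)
  have x2 : x - (a 2 : K) ≠ 0 := sub_ne_zero.2 (hx 2)
  have hne : ∀ i j : Fin 3, i ≠ j → (a i : K) - (a j : K) ≠ 0 := fun i j hij =>
    sub_ne_zero.2 fun h => hij (ha (by exact_mod_cast h))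
  have a12 := hne 1 2 (by decide)
  have a10 := hne 1 0 (by decide)
  have a02 := hne 0 2 (by decide)
  have e0 : mob a x * (x - (a 2 : K)) * ((a 1 : K) - (a 0 : K)) =
      (x - (a 0 : K)) * ((a 1 : K) - (a 2 : K)) := by
    unfold mob
    field_simp
  have e1 : (mob a x - 1) * (x - (a 2 : K)) * ((a 1 : K) - (a 0 : K)) =
      (x - (a 1 : K)) * ((a 0 : K) - (a 2 : K)) := by
    linear_combination e0
  have hy : mob a x ≠ 0 := by
    intro h
    rw [h, zero_mul, zero_mul] at e0
    exact mul_ne_zero x0 a12 e0.symm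
  have hy1 : mob a x - 1 ≠ 0 := by
    intro h
    rw [h, zero_mul, zero_mul] at e1
    exact mul_ne_zero x1 a02 e1.symm
  refine ⟨hy, hy1, fun v hv => ?_⟩
  have v12 := val_diff a S hv (i := 1) (j := 2) (by decide)
  have v10 := val_diff a S hv (i := 1) (j := 0) (by decide)
  have v02 := val_diff a S hv (i := 0) (j := 2) (by decide)
  have f0 := congrArg (v.valuation K) e0
  have f1 := congrArg (v.valuation K) e1
  rw [map_mul, map_mul, map_mul, v10, v12, mul_one, mul_one] at f0
  rw [map_mul, map_mul, map_mul, v10, v02, mul_one, mul_one] at f1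
  refine ⟨f0.symm, f1.symm, ?_⟩
  rw [← f0, ← mul_assoc, ← map_mul, inv_mul_cancel₀ hy, map_one, one_mul]

lemma pointwise (a : Fin 3 → ℚ) (ha : Function.Injective a) (S : Finset ℕ) (x : K)
    (hx : ∀ j, x ≠ (a j : K)) (v : HeightOneSpectrum (𝓞 K))
    (hv : ((MM a S : ℕ) : 𝓞 K) ∉ v.asIdeal) :
    ct ∅ (fun v : HeightOneSpectrum (𝓞 K) => v.valuation K (mob a x) < 1) v +
    ct ∅ (fun v : HeightOneSpectrum (𝓞 K) => v.valuation K (mob a x)⁻¹ < 1) v +
    ct ∅ (fun v : HeightOneSpectrum (𝓞 K) => v.valuation K (mob a x - 1) < 1) v ≤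
    ct S (fun v : HeightOneSpectrum (𝓞 K) => ∃ j ∈ Finset.univ, Near (pt (a j)) x v) v := by
  obtain ⟨hy, hy1, hvals⟩ := mob_vals a ha S x hx
  obtain ⟨f0, f1, f2⟩ := hvals v hv
  have hS : ∀ p ∈ S, (p : 𝓞 K) ∉ v.asIdeal := fun p hp => not_mem_of_dvd (MM_p a S hp) hv
  have hden : ∀ i, (((a i).den : ℕ) : 𝓞 K) ∉ v.asIdeal := fun i =>
    not_mem_of_dvd (MM_den a S i) hv
  have p0 : (0 : WithZero (Multiplicative ℤ)) < v.valuation K (x - (a 0 : K)) :=
    zero_lt_iff.2 ((Valuation.ne_zero_iff _).2 (sub_ne_zero.2 (hx 0)))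
  have p2 : (0 : WithZero (Multiplicative ℤ)) < v.valuation K (x - (a 2 : K)) :=
    zero_lt_iff.2 ((Valuation.ne_zero_iff _).2 (sub_ne_zero.2 (hx 2)))
  by_cases h0 : v.valuation K (mob a x) < 1
  · have h2 : ¬ v.valuation K (mob a x)⁻¹ < 1 := fun h => excl02 hy h0.le h
    have h1 : ¬ v.valuation K (mob a x - 1) < 1 := fun h => excl01 h0 h
    have hnear : Near (pt (a 0)) x v := by
      refine near_of (a 0) x v (hden 0) (lt_of_lt_of_le ?_ (sub_le (a 2) x v (hden 2)))
      rw [f0]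
      exact (mul_lt_mul_of_pos_right h0 p2).trans_le (by rw [one_mul])
    rw [ct_pos (A := fun v : HeightOneSpectrum (𝓞 K) => v.valuation K (mob a x) < 1)
        ⟨by simp, h0⟩,
      ct_neg (A := fun v : HeightOneSpectrum (𝓞 K) => v.valuation K (mob a x)⁻¹ < 1)
        (fun h => h2 h.2),
      ct_neg (A := fun v : HeightOneSpectrum (𝓞 K) => v.valuation K (mob a x - 1) < 1)
        (fun h => h1 h.2),
      ct_pos ⟨hS, 0, Finset.mem_univ _, hnear⟩, add_zero, add_zero]
  · by_cases h2 : v.valuation K (mob a x)⁻¹ < 1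
    · have h1 : ¬ v.valuation K (mob a x - 1) < 1 := fun h => excl12 hy h h2
      have hnear : Near (pt (a 2)) x v := by
        refine near_of (a 2) x v (hden 2) (lt_of_lt_of_le ?_ (sub_le (a 0) x v (hden 0)))
        rw [f2]
        exact (mul_lt_mul_of_pos_right h2 p0).trans_le (by rw [one_mul])
      rw [ct_neg (A := fun v : HeightOneSpectrum (𝓞 K) => v.valuation K (mob a x) < 1)
          (fun h => h0 h.2),
        ct_pos (A := fun v : HeightOneSpectrum (𝓞 K) => v.valuation K (mob a x)⁻¹ < 1)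
          ⟨by simp, h2⟩,
        ct_neg (A := fun v : HeightOneSpectrum (𝓞 K) => v.valuation K (mob a x - 1) < 1)
          (fun h => h1 h.2),
        ct_pos ⟨hS, 2, Finset.mem_univ _, hnear⟩, add_zero, zero_add]
    · by_cases h1 : v.valuation K (mob a x - 1) < 1
      · have hnear : Near (pt (a 1)) x v := by
          refine near_of (a 1) x v (hden 1) (lt_of_lt_of_le ?_ (sub_le (a 2) x v (hden 2)))
          rw [f1]
          exact (mul_lt_mul_of_pos_right h1 p2).trans_le (by rw [one_mul])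
        rw [ct_neg (A := fun v : HeightOneSpectrum (𝓞 K) => v.valuation K (mob a x) < 1)
            (fun h => h0 h.2),
          ct_neg (A := fun v : HeightOneSpectrum (𝓞 K) => v.valuation K (mob a x)⁻¹ < 1)
            (fun h => h2 h.2),
          ct_pos (A := fun v : HeightOneSpectrum (𝓞 K) => v.valuation K (mob a x - 1) < 1)
            ⟨by simp, h1⟩,
          ct_pos ⟨hS, 1, Finset.mem_univ _, hnear⟩, zero_add, zero_add]
      · rw [ct_neg (A := fun v : HeightOneSpectrum (𝓞 K) => v.valuation K (mob a x) < 1)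
            (fun h => h0 h.2),
          ct_neg (A := fun v : HeightOneSpectrum (𝓞 K) => v.valuation K (mob a x)⁻¹ < 1)
            (fun h => h2 h.2),
          ct_neg (A := fun v : HeightOneSpectrum (𝓞 K) => v.valuation K (mob a x - 1) < 1)
            (fun h => h1 h.2), add_zero, add_zero]
        exact ct_nonneg _ _ _

lemma ct_le (S : Finset ℕ) (A : HeightOneSpectrum (𝓞 K) → Prop) (v : HeightOneSpectrum (𝓞 K)) :
    ct S A v ≤ Real.log (Ideal.absNorm v.asIdeal) := by
  unfold ct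
  split_ifs
  · exact le_rfl
  · exact log_norm_nonneg v

theorem t : StmtMOBC := by
  classical
  intro K _ _ a ha S hS
  set M := MM a S with hM
  have hM0 : M ≠ 0 := MM_ne a ha S hS
  set gg : HeightOneSpectrum (𝓞 K) → ℝ := fun v =>
    if ((M : ℕ) : 𝓞 K) ∈ v.asIdeal then 3 * Real.log (Ideal.absNorm v.asIdeal) else 0 with hgg
  have hgg0 : ∀ v, 0 ≤ gg v := by
    intro v
    rw [hgg]
    simp only
    split_ifs
    · exact mul_nonneg (by norm_num) (log_norm_nonneg v)
    · exact le_rfl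
  have hggf : Function.HasFiniteSupport gg := by
    have h1 : (M : K) ≠ 0 := by exact_mod_cast hM0
    refine (val_finite (L := K) (M : K) h1).subset fun v hv => ?_
    rw [Function.mem_support] at hv
    by_contra h2
    apply hv
    rw [hgg]
    simp only
    rw [if_neg]
    intro h3
    apply h2
    have h4 := (v.valuation_lt_one_iff_mem (K := K) ((M : ℕ) : 𝓞 K)).2 h3
    show v.valuation K (M : K) < 1
    simpa using h4
  refine ⟨∑ᶠ v, gg v, finsum_nonneg hgg0, fun x hx => ?_⟩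
  obtain ⟨hy, hy1, -⟩ := mob_vals a ha S x hx
  rw [mul_add, mul_add, cond_eq, cond_eq, cond_eq, cnt_eq]
  have s0 := ct_support ∅ (val_finite (L := K) (mob a x) hy)
  have s2 := ct_support ∅ (val_finite (L := K) (mob a x)⁻¹ (inv_ne_zero hy))
  have s1 := ct_support ∅ (val_finite (L := K) (mob a x - 1) hy1)
  have hN : {v : HeightOneSpectrum (𝓞 K) | ∃ j ∈ Finset.univ, Near (pt (a j)) x v}.Finite := by
    have h1 : {v : HeightOneSpectrum (𝓞 K) | ∃ j ∈ Finset.univ, Near (pt (a j)) x v} =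
        ⋃ j, {v | Near (pt (a j)) x v} := by
      ext v; simp
    rw [h1]
    refine Set.finite_iUnion fun j => near_finite _ _ ?_
    intro h2
    apply hx j
    have hd0 : ((a j).den : K) ≠ 0 := by exact_mod_cast (a j).den_nz
    have h3 : (a j : K) = ((a j).num : K) / ((a j).den : K) := by
      exact_mod_cast Rat.cast_def (K := K) (a j)
    unfold lin pt at h2
    rw [h3, eq_div_iff hd0]
    have h4 := (sub_eq_zero.1 h2).symm
    simpa using h4
  have s3 := ct_support S hN
  unfold cc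
  rw [← finsum_add_distrib s0 s2,
    ← finsum_add_distrib (Set.Finite.subset (s0.union s2) (Function.support_add _ _)) s1,
    ← finsum_add_distrib s3 hggf]
  refine finsum_le_finsum' ?_ ?_ ?_
  · exact Set.Finite.subset (((s0.union s2)).union s1)
      ((Function.support_add _ _).trans (Set.union_subset_union_left _ (Function.support_add _ _)))
  · exact Set.Finite.subset (s3.union hggf) (Function.support_add _ _)
  · intro v
    by_cases hv : ((M : ℕ) : 𝓞 K) ∈ v.asIdeal
    · have h1 : gg v = 3 * Real.log (Ideal.absNorm v.asIdeal) := by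
        rw [hgg]; simp only; rw [if_pos hv]
      have c0 := ct_le ∅ (fun v : HeightOneSpectrum (𝓞 K) => v.valuation K (mob a x) < 1) v
      have c2 := ct_le ∅ (fun v : HeightOneSpectrum (𝓞 K) => v.valuation K (mob a x)⁻¹ < 1) v
      have c1 := ct_le ∅ (fun v : HeightOneSpectrum (𝓞 K) => v.valuation K (mob a x - 1) < 1) v
      have c3 := ct_nonneg S
        (fun v : HeightOneSpectrum (𝓞 K) => ∃ j ∈ Finset.univ, Near (pt (a j)) x v) v
      beta_reduce
      rw [h1]
      linarith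
    · exact (pointwise a ha S x hx v hv).trans (le_add_of_nonneg_right (hgg0 v))

end Pool.Agent.W337.AC.MOBC
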